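import Pool.Agent.H.MP_1639aa_nt.Hat
import Pool.Agent.H.MP_1639aa_nt.Build

set_option autoImplicit false

namespace Pool.Agent.Results.MP_1639aa_nt.Sharp

open Polynomial Filter Pool.Agent.H.MP_1639aa_nt

/-- Height of an integer polynomial: the largest absolute value of a coefficient. -/
def H (P : ℤ[X]) : ℕ := P.support.sup fun i => (P.coeff i).natAbs

/-- `P` is (up to sign) the minimal polynomial over `ℤ` of the real number `α`. -/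
def IsMin (α : ℝ) (P : ℤ[X]) : Prop := Irreducible P ∧ aeval α P = 0

/-- The set whose supremum is `w_n(ζ)`. -/
def wSet (n : ℕ) (ζ : ℝ) : Set ℝ :=
  {v | {P : ℤ[X] | P ≠ 0 ∧ P.natDegree ≤ n ∧ |aeval ζ P| ≤ (H P : ℝ) ^ (-v)}.Infinite}

/-- The set whose supremum is `w_n^*(ζ)`. -/
def wStarSet (n : ℕ) (ζ : ℝ) : Set ℝ :=
  {v | {α : ℝ | ∃ P, IsMin α P ∧ P.natDegree ≤ n ∧ |ζ - α| ≤ (H P : ℝ) ^ (-v - 1)}.Infinite}

/-- The set whose supremum is the uniform exponent for monic polynomials. -/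
def hatIntSet (n : ℕ) (ζ : ℝ) : Set ℝ :=
  {v | ∀ᶠ X : ℝ in atTop, ∃ P : ℤ[X], P.Monic ∧ P.natDegree ≤ n ∧ (H P : ℝ) ≤ X ∧
    |aeval ζ P| ≤ X ^ (-v)}

/-- The set whose supremum is the uniform exponent for algebraic integers. -/
def hatStarIntSet (n : ℕ) (ζ : ℝ) : Set ℝ :=
  {v | ∀ᶠ X : ℝ in atTop, ∃ (α : ℝ) (P : ℤ[X]), IsIntegral ℤ α ∧ IsMin α P ∧ P.natDegree ≤ n ∧
    (H P : ℝ) ≤ X ∧ |ζ - α| ≤ (H P : ℝ)⁻¹ * X ^ (-v)}

/-- `ζ` is transcendental and lies in the class `D_{2,w}`. -/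
def InD2 (w ζ : ℝ) : Prop :=
  Transcendental ℚ ζ ∧ IsLUB (wSet 1 ζ) w ∧ IsLUB (wStarSet 1 ζ) w ∧
    IsLUB (wSet 2 ζ) w ∧ IsLUB (wStarSet 2 ζ) w

theorem H_ge (P : ℤ[X]) (i : ℕ) : |(P.coeff i : ℝ)| ≤ H P := by
  by_cases h : i ∈ P.support
  · have : (P.coeff i).natAbs ≤ H P := Finset.le_sup (f := fun i => (P.coeff i).natAbs) h
    have h2 : (((P.coeff i).natAbs : ℕ) : ℝ) ≤ H P := by exact_mod_cast this
    rwa [Nat.cast_natAbs, Int.cast_abs] at h2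
  · rw [notMem_support_iff.1 h]; simp

theorem H_pos {P : ℤ[X]} (h : P ≠ 0) : (1 : ℝ) ≤ H P := by
  refine le_trans ?_ (H_ge P P.natDegree)
  exact_mod_cast Int.one_le_abs (leadingCoeff_ne_zero.2 h)

theorem H_eq (P : ℤ[X]) (b : ℤ) (h : ∀ i, |P.coeff i| ≤ b) (i : ℕ) (hi : P.coeff i = b) :
    (H P : ℝ) = b := by
  refine le_antisymm ?_ ?_
  · have : H P ≤ b.natAbs := Finset.sup_le fun j _ => by
      have := abs_le.1 (h j); omega
    have h0 : 0 ≤ b := (abs_nonneg _).trans (h 0)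
    have h2 : ((H P : ℕ) : ℤ) ≤ b := by omega
    exact_mod_cast h2
  · have := H_ge P i
    rw [hi] at this
    exact (le_abs_self _).trans this

theorem H_neg (P : ℤ[X]) : H (-P) = H P := by simp [H]

theorem eval2 {P : ℤ[X]} (h : P.natDegree ≤ 2) (x : ℝ) :
    aeval x P = (P.coeff 2 : ℝ) * x ^ 2 + P.coeff 1 * x + P.coeff 0 := by
  rw [aeval_eq_sum_range' (Nat.lt_succ_of_le h)]
  simp [Finset.sum_range_succ]
  ring

theorem ne2 {P : ℤ[X]} (h : P.natDegree ≤ 2) (h0 : P ≠ 0) :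
    P.coeff 2 ≠ 0 ∨ P.coeff 1 ≠ 0 ∨ P.coeff 0 ≠ 0 := by
  have h1 : P.coeff P.natDegree ≠ 0 := leadingCoeff_ne_zero.2 h0
  generalize P.natDegree = d at h h1
  interval_cases d <;> simp [h1]

theorem finite_H (B : ℝ) : {P : ℤ[X] | P.natDegree ≤ 2 ∧ (H P : ℝ) ≤ B}.Finite := by
  have hf : {z : ℤ | |(z : ℝ)| ≤ B}.Finite := by
    refine (Set.finite_Icc (-⌈B⌉) ⌈B⌉).subset fun z hz => ?_
    have : |z| ≤ ⌈B⌉ := by
      have h1 : |(z : ℝ)| ≤ ⌈B⌉ := le_trans hz (Int.le_ceil B)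
      exact_mod_cast h1
    exact abs_le.1 this
  refine Set.Finite.of_finite_image (f := fun P : ℤ[X] => (P.coeff 0, P.coeff 1, P.coeff 2))
    ((hf.prod (hf.prod hf)).subset ?_) ?_
  · rintro _ ⟨P, hP, rfl⟩
    exact ⟨(H_ge P 0).trans hP.2, (H_ge P 1).trans hP.2, (H_ge P 2).trans hP.2⟩
  · intro P hP Q hQ h
    simp only [Prod.mk.injEq] at h
    ext i
    rcases le_or_gt i 2 with hi | hi
    · interval_cases i
      · exact h.1
      · exact h.2.1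
      · exact h.2.2
    · rw [coeff_eq_zero_of_natDegree_lt (hP.1.trans_lt hi),
        coeff_eq_zero_of_natDegree_lt (hQ.1.trans_lt hi)]

theorem ev (K a b : ℝ) (h : a < b) : ∀ᶠ x : ℝ in atTop, K * x ^ (-b) < x ^ (-a) := by
  filter_upwards [(tendsto_rpow_atTop (sub_pos.2 h)).eventually_gt_atTop K,
    eventually_gt_atTop 0] with x h1 h2
  have e : x ^ (-a) = x ^ (b - a) * x ^ (-b) := by rw [← Real.rpow_add h2]; congr 1; ring
  rw [e]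
  exact mul_lt_mul_of_pos_right h1 (Real.rpow_pos_of_pos h2 _)

theorem isLUB_of {S : Set ℝ} {w : ℝ} (h1 : ∀ v < w, v ∈ S) (h2 : ∀ v ∈ S, v ≤ w) : IsLUB S w :=
  ⟨h2, fun _ hb => le_of_forall_lt_imp_le_of_dense fun v hv => hb (h1 v hv)⟩

theorem lipP {P : ℤ[X]} (h : P.natDegree ≤ 2) {ζ α : ℝ} (h0 : 0 ≤ ζ) (h1 : ζ ≤ 1)
    (h2 : |ζ - α| ≤ 1) (h3 : aeval α P = 0) : |aeval ζ P| ≤ 4 * H P * |ζ - α| := by
  rw [eval2 h] at h3
  have e : aeval ζ P = (ζ - α) * ((P.coeff 2 : ℝ) * (ζ + α) + P.coeff 1) := by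
    rw [eval2 h]; linear_combination h3
  have h4 : |ζ + α| ≤ 3 := by
    have := abs_le.1 h2
    rw [abs_le]; constructor <;> linarith
  have h5 : |(P.coeff 2 : ℝ) * (ζ + α) + P.coeff 1| ≤ 4 * H P := by
    refine (abs_add_le _ _).trans ?_
    rw [abs_mul]
    nlinarith [H_ge P 2, H_ge P 1, abs_nonneg (P.coeff 2 : ℝ), abs_nonneg (ζ + α)]
  rw [e, abs_mul, mul_comm]
  exact mul_le_mul_of_nonneg_right h5 (abs_nonneg _)

section
variable {w ζ : ℝ} {p q : ℕ → ℤ}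

theorem finite_small (G : Good w ζ p q) (hw : 3 ≤ w) (hw2 : 2 * (w + 1) ≤ w * (w - 1))
    {v : ℝ} (hv : w < v) :
    {P : ℤ[X] | P ≠ 0 ∧ P.natDegree ≤ 2 ∧ |aeval ζ P| ≤ 4 * (H P : ℝ) ^ (-v)}.Finite := by
  obtain ⟨c, hc, hq⟩ := G.quad hw hw2
  obtain ⟨B, hB⟩ := eventually_atTop.1 (ev (4 / c) w v hv)
  refine (finite_H B).subset fun P hP => ⟨hP.2.1, ?_⟩
  by_contra hlt
  have h1 := hB _ (not_le.1 hlt).le
  have h2 := hq _ _ _ _ (H_pos hP.1) (H_ge P 2) (H_ge P 1) (ne2 hP.2.1 hP.1)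
  rw [← eval2 hP.2.1] at h2
  have h3 := hP.2.2
  rw [div_mul_eq_mul_div, div_lt_iff₀ hc] at h1
  linarith

theorem wSet_le (G : Good w ζ p q) (hw : 3 ≤ w) (hw2 : 2 * (w + 1) ≤ w * (w - 1)) {n : ℕ}
    (hn : n ≤ 2) : ∀ v ∈ wSet n ζ, v ≤ w := by
  intro v hv
  by_contra hlt
  refine hv ((finite_small G hw hw2 (not_le.1 hlt)).subset fun P hP => ⟨hP.1, hP.2.1.trans hn, ?_⟩)
  have : 0 ≤ (H P : ℝ) ^ (-v) := by positivity
  linarith [hP.2.2]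

theorem wStarSet_le (G : Good w ζ p q) (hw : 3 ≤ w) (hw2 : 2 * (w + 1) ≤ w * (w - 1)) {n : ℕ}
    (hn : n ≤ 2) : ∀ v ∈ wStarSet n ζ, v ≤ w := by
  intro v hv
  by_contra hlt
  have hlt := not_le.1 hlt
  refine hv (((finite_small G hw hw2 hlt).biUnion
    (t := fun P : ℤ[X] => P.rootSet ℝ) fun P _ => P.rootSet_finite ℝ).subset ?_)
  rintro α ⟨P, hP, hd, hα⟩
  have h0 := hP.1.ne_zero
  have h1 := H_pos h0
  refine Set.mem_biUnion (x := P) ⟨h0, hd.trans hn, ?_⟩ (mem_rootSet.2 ⟨h0, hP.2⟩)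
  have h2 : (H P : ℝ) ^ (-v - 1) ≤ 1 := Real.rpow_le_one_of_one_le_of_nonpos h1 (by linarith)
  refine (lipP (hd.trans hn) (by linarith [G.z0]) (by linarith [G.z1]) (hα.trans h2)
    hP.2).trans ?_
  have e : (H P : ℝ) ^ (-v) = H P * (H P : ℝ) ^ (-v - 1) := by
    rw [Real.rpow_sub_one (by linarith)]; field_simp
  rw [e, mul_assoc]
  gcongr

/-- The linear polynomials `q_k T - p_k`. -/
noncomputable def L (p q : ℕ → ℤ) (k : ℕ) : ℤ[X] := C (q k) * X + C (-p k)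

theorem L_facts (G : Good w ζ p q) (k : ℕ) : (H (L p q k) : ℝ) = q k ∧
    (L p q k).natDegree ≤ 1 ∧ IsMin ((p k : ℝ) / q k) (L p q k) ∧
      aeval ζ (L p q k) = -((p k : ℝ) - q k * ζ) := by
  have hq := G.qpos k
  have hq8 := G.q8 k
  have h1 : (0 : ℝ) < p k := by
    have : 0 < (p k : ℝ) / q k := by linarith [G.z0, G.lt_x k]
    exact (div_pos_iff_of_pos_right hq).1 this
  have h2 : (p k : ℝ) ≤ q k := by
    have := G.x1 k
    rw [div_le_iff₀ hq] at this; linarith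
  have h1' : 0 < p k := by exact_mod_cast h1
  have h2' : p k ≤ q k := by exact_mod_cast h2
  refine ⟨H_eq _ _ (fun i => ?_) 1 (by simp [L, -eq_intCast, -map_neg]), ?_, ⟨?_, ?_⟩, ?_⟩
  · rcases i with _ | _ | i
    · simp [L, abs_le, -eq_intCast, -map_neg]; omega
    · simp [L, abs_le, -eq_intCast, -map_neg]; omega
    · simp [L, coeff_X, coeff_C, -eq_intCast, -map_neg]; omega
  · unfold L; compute_degree
  · exact irreducible_C_mul_X_add_C (by omega) (G.cop k).symm.neg_right.isRelPrime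
  · simp [L]; field_simp; ring
  · simp [L]; ring

theorem infinite_of (G : Good w ζ p q) (hw : 3 ≤ w) {β : Type*} (f : ℕ → β) (S : Set β)
    (g : β → ℝ) (hg : ∀ k, (q k : ℝ) ≤ g (f k)) (h : ∀ᶠ k in atTop, f k ∈ S) : S.Infinite := by
  intro hf
  obtain ⟨B, hB⟩ := (hf.image g).bddAbove
  obtain ⟨k, h1, h2⟩ := (h.and ((G.q_tendsto hw).eventually_gt_atTop B)).exists
  have := hB ⟨_, h1, rfl⟩
  linarith [hg k]

theorem mem_wSet (G : Good w ζ p q) (hw : 3 ≤ w) {n : ℕ} (hn : 1 ≤ n) :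
    ∀ v < w, v ∈ wSet n ζ := by
  intro v hv
  refine infinite_of G hw (L p q) _ (fun P => (H P : ℝ)) (fun k => (L_facts G k).1.ge) ?_
  filter_upwards [(G.q_tendsto hw).eventually (ev 2 v w hv)] with k hk
  obtain ⟨h1, h2, h3, h4⟩ := L_facts G k
  refine ⟨h3.1.ne_zero, h2.trans hn, ?_⟩
  have h5 := G.eta_ge k
  have h6 := Real.rpow_pos_of_pos (G.qpos k) (-w)
  rw [h1, h4, abs_neg, abs_of_pos (by linarith)]
  linarith [G.eta_le k]

theorem mem_wStarSet (G : Good w ζ p q) (hw : 3 ≤ w) {n : ℕ} (hn : 1 ≤ n) :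
    ∀ v < w, v ∈ wStarSet n ζ := by
  intro v hv
  refine infinite_of G hw (fun k => (p k : ℝ) / q k) _ (fun x => 1 / (x - ζ)) (fun k => ?_) ?_
  · have h1 := G.a2 k
    have h2 := G.lt_x k
    have h3 := G.q4 hw k
    have h4 := G.qR k
    have h5 : 2 * (q k : ℝ) ≤ q (k + 1) := by
      nlinarith [pow_le_pow_left₀ (by norm_num : (0 : ℝ) ≤ 8) h4 3]
    rw [le_div_iff₀ (by linarith)]
    rw [le_div_iff₀ (G.qpos _)] at h1
    nlinarith
  filter_upwards [(G.q_tendsto hw).eventually (ev 2 (v + 1) (w + 1) (by linarith))] with k hk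
  obtain ⟨h1, h2, h3, h4⟩ := L_facts G k
  refine ⟨L p q k, h3, h2.trans hn, ?_⟩
  rw [h1, abs_sub_comm, abs_of_pos (by linarith [G.lt_x k]), show -v - 1 = -(v + 1) by ring]
  linarith [G.d_le k]

theorem hat_mem (G : Good w ζ p q) {K u : ℝ} (x0 : ℝ)
    (h : ∀ X : ℝ, x0 ≤ X → ∃ b c : ℤ, 8 ≤ b ∧ (b : ℝ) ≤ X ∧ 0 ≤ ζ ^ 2 + b * ζ + c ∧
      ζ ^ 2 + b * ζ + c ≤ 1 ∧ ζ ^ 2 + b * ζ + c ≤ K * X ^ (-u)) :
    ∀ v < u, v ∈ hatIntSet 2 ζ ∧ v ∈ hatStarIntSet 2 ζ := by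
  intro v hv
  have z0 := G.z0
  have z1 := G.z1
  suffices hs : ∀ᶠ X : ℝ in atTop, ∃ (α : ℝ) (P : ℤ[X]), P.Monic ∧ IsMin α P ∧ P.natDegree ≤ 2 ∧
      (H P : ℝ) ≤ X ∧ |aeval ζ P| ≤ X ^ (-v) ∧ |ζ - α| ≤ (H P : ℝ)⁻¹ * X ^ (-v) by
    refine ⟨hs.mono ?_, hs.mono ?_⟩
    · rintro X ⟨α, P, h1, h2, h3, h4, h5, h6⟩
      exact ⟨P, h1, h3, h4, h5⟩
    · rintro X ⟨α, P, h1, h2, h3, h4, h5, h6⟩
      exact ⟨α, P, ⟨P, h1, h2.2⟩, h2, h3, h4, h6⟩
  filter_upwards [eventually_ge_atTop x0, ev (2 * K) v u hv] with Y hY hK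
  obtain ⟨b, c, hb, hbY, e0, e1, e2⟩ := h Y hY
  have hbR : (8 : ℝ) ≤ b := by exact_mod_cast hb
  obtain ⟨δ, hδ, hδ2⟩ := exists_root (2 * ζ + b) _ (by linarith) e0 e1
  set P : ℤ[X] := X ^ 2 + C b * X + C c with hP
  have hev : ∀ x : ℝ, aeval x P = x ^ 2 + b * x + c := fun x => by simp [hP]
  have hdeg : P.natDegree = 2 := by rw [hP]; compute_degree!
  have hmon : P.Monic := by rw [hP]; monicity!
  have hc : |c| ≤ b := by
    have : |(c : ℝ)| ≤ b := by rw [abs_le]; constructor <;> nlinarith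
    exact_mod_cast this
  have hH : (H P : ℝ) = b := by
    refine H_eq _ _ (fun i => ?_) 1 (by simp [hP, -eq_intCast])
    rcases i with _ | _ | _ | i
    · simpa [hP] using hc
    · simp [hP, abs_le, -eq_intCast]; omega
    · simp [hP, coeff_X, coeff_C, -eq_intCast]; omega
    · simp [hP, coeff_X, coeff_C, -eq_intCast]; omega
  have hδ3 : |δ| ≤ 4 / 17 := by
    have : |δ| * (17 / 2) ≤ |δ| * (2 * ζ + b) := by gcongr; linarith
    linarith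
  have hδ4 := abs_le.1 hδ3
  have hroot : (ζ + δ) ^ 2 + b * (ζ + δ) + c = 0 := by linear_combination hδ
  refine ⟨ζ + δ, P, hmon, ⟨?_, by rw [hev, hroot]⟩, hdeg.le, hH ▸ hbY, ?_, ?_⟩
  · rw [hmon.irreducible_iff_roots_eq_zero_of_degree_le_three hdeg.ge (by omega)]
    refine Multiset.eq_zero_of_forall_notMem fun m hm => ?_
    have h1 : m ^ 2 + b * m + c = 0 := by simpa [hP] using (mem_roots hmon.ne_zero).1 hm
    have h2 : (m : ℝ) ^ 2 + b * m + c = 0 := by exact_mod_cast h1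
    have h3 : ((m : ℝ) - (ζ + δ)) * ((ζ + δ) - ((-m - b : ℤ) : ℝ)) = 0 := by
      push_cast; linear_combination h2 - hroot
    have h4 : ∀ z : ℤ, (z : ℝ) ≠ ζ + δ := by
      intro z hz
      have h5 : (0 : ℝ) < z := by linarith
      have h6 : (z : ℝ) < 1 := by linarith
      have h7 : 0 < z := by exact_mod_cast h5
      have h8 : z < 1 := by exact_mod_cast h6
      omega
    rcases mul_eq_zero.1 h3 with h5 | h5
    · exact h4 m (by linarith)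
    · exact h4 (-m - b) (by linarith)
  · rw [hev, abs_of_nonneg e0]; nlinarith
  · rw [hH, show ζ - (ζ + δ) = -δ by ring, abs_neg, inv_mul_eq_div, le_div_iff₀ (by linarith)]
    nlinarith [abs_nonneg δ]

theorem hat_le (G : Good w ζ p q) (hw : 3 ≤ w) {ρ : ℝ} (h0 : 0 ≤ ρ) (h1 : ρ ≤ 1)
    (R2 : ∀ k, ∀ s : ℤ, (q (k + 1) : ℝ) ^ ρ / 8 ≤ |((p (k + 1) ^ 2 + q (k + 1) * s : ℤ) : ℝ)|)
    {v : ℝ} (h : ∀ᶠ X : ℝ in atTop, ∃ P : ℤ[X], P.Monic ∧ P.natDegree ≤ 2 ∧ (H P : ℝ) ≤ X ∧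
      |aeval ζ P| ≤ 4 * X ^ (-v)) : v ≤ (2 - ρ) / (w - 1 + ρ) := by
  have hden : 0 < w - 1 + ρ := by linarith
  by_contra hlt
  have hv : 2 - ρ < (w - 1 + ρ) * v := by
    have := not_le.1 hlt
    rw [div_lt_iff₀ hden] at this; linarith
  have hq : Tendsto (fun k => (q (k + 1) : ℝ)) atTop atTop :=
    (G.q_tendsto hw).comp (tendsto_add_atTop_nat 1)
  have hX : Tendsto (fun k => (q (k + 1) : ℝ) ^ (w - 1 + ρ) / 64) atTop atTop :=
    ((tendsto_rpow_atTop hden).comp hq).atTop_div_const (by norm_num)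
  obtain ⟨k, ⟨P, hm, hd, hH, hP⟩, hk⟩ :=
    ((hX.eventually h).and (hq.eventually (ev (64 / 64 ^ (-v)) _ _ hv))).exists
  have habc : P.coeff 2 = 1 ∨ (P.coeff 2 = 0 ∧ P.coeff 1 = 1) ∨
      (P.coeff 2 = 0 ∧ P.coeff 1 = 0 ∧ P.coeff 0 = 1) := by
    have h2 : P.coeff P.natDegree = 1 := hm
    have h3 : ∀ i, P.natDegree < i → P.coeff i = 0 := fun i => coeff_eq_zero_of_natDegree_lt
    generalize P.natDegree = d at hd h2 h3
    interval_cases d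
    · exact Or.inr (Or.inr ⟨h3 _ (by norm_num), h3 _ (by norm_num), h2⟩)
    · exact Or.inr (Or.inl ⟨h3 _ (by norm_num), h2⟩)
    · exact Or.inl h2
  have h4 := G.upper ρ h1 (k + 1) (R2 k) _ _ _ habc ((H_ge P 2).trans hH) ((H_ge P 1).trans hH)
  have hqk := G.qpos (k + 1)
  rw [← eval2 hd] at h4
  rw [Real.div_rpow (Real.rpow_nonneg hqk.le _) (by norm_num), ← Real.rpow_mul hqk.le,
    mul_neg] at hP
  rw [neg_sub, div_mul_eq_mul_div, mul_div_assoc] at hk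
  linarith

theorem star_sub (G : Good w ζ p q) {v : ℝ} (hv0 : 0 ≤ v) (hv : v ∈ hatStarIntSet 2 ζ) :
    ∀ᶠ X : ℝ in atTop, ∃ P : ℤ[X], P.Monic ∧ P.natDegree ≤ 2 ∧ (H P : ℝ) ≤ X ∧
      |aeval ζ P| ≤ 4 * X ^ (-v) := by
  filter_upwards [hv, eventually_ge_atTop 1] with Y ⟨α, P, hi, hP, hd, hH, hα⟩ hY
  have h1 := H_pos hP.1.ne_zero
  have h2 : Y ^ (-v) ≤ 1 := Real.rpow_le_one_of_one_le_of_nonpos hY (by linarith)
  have h3 : 0 ≤ Y ^ (-v) := by positivity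
  have h4 : (H P : ℝ)⁻¹ ≤ 1 := inv_le_one_of_one_le₀ h1
  have h5 : |aeval ζ P| ≤ 4 * Y ^ (-v) := by
    refine (lipP hd (by linarith [G.z0]) (by linarith [G.z1]) (hα.trans (by nlinarith))
      hP.2).trans ?_
    calc 4 * (H P : ℝ) * |ζ - α| ≤ 4 * H P * ((H P : ℝ)⁻¹ * Y ^ (-v)) := by gcongr
      _ = _ := by field_simp
  obtain ⟨Q, hQ⟩ := minpoly.isIntegrallyClosed_dvd hi hP.2
  have hu : IsUnit Q := (hP.1.isUnit_or_isUnit hQ).resolve_left (minpoly.not_isUnit ℤ α)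
  obtain ⟨r, hr, rfl⟩ := Polynomial.isUnit_iff.1 hu
  have hm := minpoly.monic hi
  rcases Int.isUnit_iff.1 hr with rfl | rfl
  · exact ⟨P, by rw [hQ]; simpa using hm, hd, hH, h5⟩
  · exact ⟨-P, by rw [hQ]; simpa using hm, by simpa using hd, by rwa [H_neg], by simpa using h5⟩

end

/-- For `n = 2` and `w ≥ (3 + √17)/2` each of the two known bounds, `2/(w-1)` and `1/w`, is the
common value of both uniform exponents for some `ζ` in `D_{2,w}`. -/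
theorem result (w : ℝ) (hw : (3 + √17) / 2 ≤ w) (u : ℝ) (hu : u = 2 / (w - 1) ∨ u = 1 / w) :
    ∃ ζ : ℝ, InD2 w ζ ∧ IsLUB (hatIntSet 2 ζ) u ∧ IsLUB (hatStarIntSet 2 ζ) u := by
  have hs := Real.sq_sqrt (by norm_num : (0 : ℝ) ≤ 17)
  have hs0 := Real.sqrt_nonneg 17
  have hs3 : 3 ≤ √17 := by nlinarith
  have hw3 : 3 ≤ w := by linarith
  have hw2 : 2 * (w + 1) ≤ w * (w - 1) := by nlinarith
  obtain ⟨ρ, hρ, rfl⟩ : ∃ ρ : ℝ, (ρ = 0 ∨ ρ = 1) ∧ u = (2 - ρ) / (w - 1 + ρ) := by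
    rcases hu with rfl | rfl
    · exact ⟨0, Or.inl rfl, by simp⟩
    · exact ⟨1, Or.inr rfl, by norm_num⟩
  have h0 : 0 ≤ ρ := by rcases hρ with rfl | rfl <;> norm_num
  have h1 : ρ ≤ 1 := by rcases hρ with rfl | rfl <;> norm_num
  obtain ⟨ζ, p, q, ht, G, R1, R2⟩ := exists_good hw3 ρ hρ
  have hl := hat_mem G _ (G.lower hw3 hw2 ρ h0 h1 R1)
  refine ⟨ζ, ⟨ht, isLUB_of (mem_wSet G hw3 le_rfl) (wSet_le G hw3 hw2 one_le_two),
    isLUB_of (mem_wStarSet G hw3 le_rfl) (wStarSet_le G hw3 hw2 one_le_two),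
    isLUB_of (mem_wSet G hw3 one_le_two) (wSet_le G hw3 hw2 le_rfl),
    isLUB_of (mem_wStarSet G hw3 one_le_two) (wStarSet_le G hw3 hw2 le_rfl)⟩,
    isLUB_of (fun v hv => (hl v hv).1) fun v hv => hat_le G hw3 h0 h1 R2 ?_,
    isLUB_of (fun v hv => (hl v hv).2) fun v hv => ?_⟩
  · filter_upwards [hv, eventually_ge_atTop 0] with Y ⟨P, a1, a2, a3, a4⟩ hY
    have : 0 ≤ Y ^ (-v) := by positivity
    exact ⟨P, a1, a2, a3, by linarith⟩
  · rcases le_total 0 v with hv0 | hv0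
    · exact hat_le G hw3 h0 h1 R2 (star_sub G hv0 hv)
    · exact hv0.trans (div_nonneg (by linarith) (by linarith))

end Pool.Agent.Results.MP_1639aa_nt.Sharp
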